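import Pool.Agent.Q203.TR.Comb
import Pool.Agent.Q203.TR.Stone

set_option autoImplicit false

open Set Topology TopologicalSpace

namespace Pool.Agent.Results.MP_f7d718_lc.TransitiveConjugacy

/-- The topology of uniform convergence on the homeomorphism group of the Cantor set
`2^ℕ = (ℕ → Bool)`: the topology induced from the compact-open topology on `C(2^ℕ, 2^ℕ)`. -/
@[reducible] def homeoTopology : TopologicalSpace ((ℕ → Bool) ≃ₜ (ℕ → Bool)) :=
  TopologicalSpace.induced
    (fun T => (⟨T, T.continuous⟩ : C(ℕ → Bool, ℕ → Bool))) inferInstance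

/-- Topological transitivity of a homeomorphism of the Cantor set. -/
def TopTransitive (T : (ℕ → Bool) ≃ₜ (ℕ → Bool)) : Prop :=
  ∀ U V : Set (ℕ → Bool), IsOpen U → IsOpen V → U.Nonempty → V.Nonempty →
    ∃ n : ℤ, (((T ^ n : (ℕ → Bool) ≃ₜ (ℕ → Bool)) '' U) ∩ V).Nonempty

/-- The class of topologically transitive homeomorphisms of the Cantor set. -/
abbrev TransHomeo : Type := {T : (ℕ → Bool) ≃ₜ (ℕ → Bool) // TopTransitive T}

/-- Its Borel structure, inherited from the Borel structure of the homeomorphism group. -/
@[reducible] def transMeasurable : MeasurableSpace TransHomeo :=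
  (@borel _ homeoTopology).comap Subtype.val

/-- Topological conjugacy `S = h T h⁻¹` on the class of transitive homeomorphisms. -/
def Conj (S T : TransHomeo) : Prop :=
  ∃ h : (ℕ → Bool) ≃ₜ (ℕ → Bool), S.1 = h * T.1 * h⁻¹

/-- Countable graphs: irreflexive symmetric relations on `ℕ` (coded as `Bool`-valued matrices;
the Borel structure is the product one). -/
abbrev CountableGraph : Type :=
  {G : ℕ → ℕ → Bool // (∀ a, G a a = false) ∧ ∀ a b, G a b = G b a}

/-- Isomorphism of countable graphs. -/
def GraphIso (G G' : CountableGraph) : Prop :=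
  ∃ f : Equiv.Perm ℕ, ∀ a b, G.1 a b = G'.1 (f a) (f b)

/-- Borel reducibility. -/
def BorelRed {X Y : Type} (mX : MeasurableSpace X) (mY : MeasurableSpace Y)
    (E : X → X → Prop) (F : Y → Y → Prop) : Prop :=
  ∃ f : X → Y, @Measurable X Y mX mY f ∧ ∀ x x', E x x' ↔ F (f x) (f x')

open Pool.Agent.Q203.TR in
theorem graph_to_conj : BorelRed (inferInstance : MeasurableSpace CountableGraph) transMeasurable
    GraphIso Conj := by
  obtain ⟨e⟩ := exists_homeo
  let F : (ℕ → ℕ → Bool) → ((ℕ → Bool) ≃ₜ (ℕ → Bool)) :=
    fun G => (e.symm.trans (T (qq G))).trans e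
  have hFap : ∀ G x, F G x = e (T (qq G) (e.symm x)) := fun G x => rfl
  have hiter : ∀ G (n : ℕ) x, (F G ^ n) x = e ((T (qq G))^[n] (e.symm x)) := by
    intro G n
    induction n with
    | zero =>
      intro x
      simp
    | succ n ih =>
      intro x
      rw [pow_succ', Homeomorph.mul_apply, ih, hFap, e.symm_apply_apply,
        Function.iterate_succ_apply']
  have htr : ∀ G, TopTransitive (F G) := by
    intro G U V hU hV hUn hVn
    obtain ⟨n, y, ⟨x, hx, hxy⟩, hy⟩ := transitive (qq G) (e ⁻¹' U) (e ⁻¹' V)
      (hU.preimage e.continuous) (hV.preimage e.continuous)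
      (by obtain ⟨u, hu⟩ := hUn; exact ⟨e.symm u, by simpa using hu⟩)
      (by obtain ⟨u, hu⟩ := hVn; exact ⟨e.symm u, by simpa using hu⟩)
    refine ⟨n, e y, ⟨e x, hx, ?_⟩, hy⟩
    rw [zpow_natCast, hiter, e.symm_apply_apply, hxy]
  have hcont : @Continuous _ _ _ homeoTopology F := by
    rw [homeoTopology, continuous_induced_rng]
    refine ContinuousMap.continuous_of_continuous_uncurry _ ?_
    change Continuous fun p : (ℕ → ℕ → Bool) × (ℕ → Bool) => e (T (qq p.1) (e.symm p.2))
    refine e.continuous.comp ?_
    refine Continuous.subtype_mk (f := fun p : (ℕ → ℕ → Bool) × (ℕ → Bool) =>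
      TT (qq p.1) (e.symm p.2).1) ?_ _
    exact continuous_TT.comp ((continuous_qq.comp continuous_fst).prodMk
      (continuous_subtype_val.comp (e.symm.continuous.comp continuous_snd)))
  refine ⟨fun G => ⟨F G.1, htr G.1⟩, ?_, ?_⟩
  · rw [measurable_comap_iff]
    have h1 : @Measurable _ _ _ (@borel _ homeoTopology) F := by
      let _ := homeoTopology
      let _ : MeasurableSpace ((ℕ → Bool) ≃ₜ (ℕ → Bool)) := borel _
      have _ : BorelSpace ((ℕ → Bool) ≃ₜ (ℕ → Bool)) := ⟨rfl⟩
      exact hcont.measurable
    exact h1.comp measurable_subtype_coe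
  · intro G G'
    constructor
    · rintro ⟨f, hf⟩
      obtain ⟨h, hh⟩ := conj_of_iso f hf
      refine ⟨((e.symm.trans h).trans e).symm, ?_⟩
      ext1 x
      change e (T (qq G.1) (e.symm x)) = e (h.symm (e.symm (e (T (qq G'.1) (e.symm (e (h (e.symm x))))))))
      rw [e.symm_apply_apply, e.symm_apply_apply, ← hh, h.symm_apply_apply]
    · rintro ⟨h, hh⟩
      refine iso_of_conj ((e.trans h.symm).trans e.symm) fun y => ?_
      have h1 : ∀ x, h.symm (F G.1 x) = F G'.1 (h.symm x) := by
        intro x
        have := congrArg (fun k : (ℕ → Bool) ≃ₜ (ℕ → Bool) => k x) hh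
        change F G.1 x = h (F G'.1 (h.symm x)) at this
        rw [this, h.symm_apply_apply]
      have h2 := h1 (e y)
      rw [hFap, hFap, e.symm_apply_apply] at h2
      change e.symm (h.symm (e (T (qq G.1) y))) = T (qq G'.1) (e.symm (h.symm (e y)))
      rw [h2, e.symm_apply_apply]

open Pool.Agent.Q203.TR in
theorem conj_to_graph : BorelRed transMeasurable (inferInstance : MeasurableSpace CountableGraph)
    Conj GraphIso := by
  classical
  have hcc : Countable (Clopens Cn) := by
    rw [TopologicalSpace.Clopens.countable_iff_secondCountable]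
    infer_instance
  have hci : Infinite (Clopens Cn) := by
    refine Infinite.of_injective (fun n : ℕ => (⟨{z : Cn | z n = true}, ?_⟩ : Clopens Cn)) ?_
    · have : {z : Cn | z n = true} = (fun z : Cn => z n) ⁻¹' {true} := rfl
      rw [this]
      exact (isClopen_discrete _).preimage (continuous_apply n)
    · intro n m h
      by_contra hne
      have h1 : (fun k => decide (k = n)) ∈ ({z : Cn | z n = true}) := by simp
      have h2 : ({z : Cn | z n = true}) = {z : Cn | z m = true} := congrArg Clopens.carrier h
      rw [h2] at h1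
      have h3 : decide (m = n) = true := h1
      rw [decide_eq_true_eq] at h3
      exact hne h3.symm
  let V := Clopens Cn ⊕ Clopens Cn
  obtain ⟨e⟩ : Nonempty (CV V ≃ ℕ) := nonempty_equiv_of_countable
  let G : ((ℕ → Bool) ≃ₜ (ℕ → Bool)) → CountableGraph := fun T =>
    ⟨fun a b => gcode (hcode T) (e.symm a) (e.symm b), fun a => gcode_irrefl _ _,
      fun a b => gcode_symm _ _ _⟩
  refine ⟨fun T => G T.1, ?_, ?_⟩
  · have h1 : @Measurable _ _ (@borel _ homeoTopology) _ G := by
      let _ := homeoTopology
      let _ : MeasurableSpace ((ℕ → Bool) ≃ₜ (ℕ → Bool)) := borel _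
      refine Measurable.subtype_mk ?_
      refine measurable_pi_lambda _ fun a => measurable_pi_lambda _ fun b => ?_
      have hd : ∀ x y : CV V, Measurable fun T : (ℕ → Bool) ≃ₜ (ℕ → Bool) =>
          dcode (hcode T) x y := by
        rintro (v | ⟨b, c, i⟩) (w | ⟨b', c', j⟩)
        · exact measurable_const
        · exact measurable_const
        · exact measurable_const
        · have h2 := meas_hcode b c
          exact (measurable_of_countable (fun u : Bool => decide (b = b') && decide (c = c') &&
            ((decide (i = 0) && decide (j = 1)) || (decide (i = 1) && decide (j = 2)) ||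
            (decide (i = 1) && decide (j = 3)) || (decide (i = 1) && decide (j = 4) && u) ||
            (decide (i = 0) && decide (j = 4) && !u)))).comp h2
      have h3 := (hd (e.symm a) (e.symm b)).prodMk (hd (e.symm b) (e.symm a))
      exact (measurable_of_countable (fun u : Bool × Bool => u.1 || u.2)).comp h3
    exact h1.comp (comap_measurable Subtype.val)
  · rintro ⟨S, hS⟩ ⟨T, hT⟩
    constructor
    · rintro ⟨h, hh⟩
      have h1 : ∀ x, h.symm (S x) = T (h.symm x) := by
        intro x
        have := congrArg (fun k : (ℕ → Bool) ≃ₜ (ℕ → Bool) => k x) hh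
        change S x = h (T (h.symm x)) at this
        rw [this, h.symm_apply_apply]
      obtain ⟨f, hf⟩ := hcode_of_conj h.symm h1
      obtain ⟨k, hk⟩ := gcode_of_iso f hf
      refine ⟨(e.symm.trans k).trans e, fun a b => ?_⟩
      simp only [G, Equiv.trans_apply, Equiv.symm_apply_apply]
      exact hk _ _
    · rintro ⟨f, hf⟩
      obtain ⟨k, hk⟩ := iso_of_gcode (H := hcode S) (H' := hcode T) ((e.trans f).trans e.symm)
        (fun x y => by
          have := hf (e x) (e y)
          simp only [G, Equiv.symm_apply_apply] at this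
          exact this)
      obtain ⟨h, hh⟩ := iso_of_hcode k hk
      refine ⟨h.symm, ?_⟩
      ext1 x
      change S x = h.symm (T (h x))
      rw [← hh, h.symm_apply_apply]

/-- **Conjugacy of topologically transitive homeomorphisms of the Cantor set is bi-reducible with
the maximal `S_∞`-action**: isomorphism of countable graphs is Borel reducible to topological
conjugacy restricted to the transitive homeomorphisms of the Cantor set, and conversely. -/
theorem result :
    BorelRed (inferInstance : MeasurableSpace CountableGraph) transMeasurable GraphIso Conj ∧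
    BorelRed transMeasurable (inferInstance : MeasurableSpace CountableGraph) Conj GraphIso :=
  ⟨graph_to_conj, conj_to_graph⟩

end Pool.Agent.Results.MP_f7d718_lc.TransitiveConjugacy
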